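import Pool.Agent.R538.MO.Final

/-!
# Preserving both distances between two vertices of a mixed graph, in polynomial time
-/

namespace Pool.Agent.Results.MP_bc7fec_lc.MixedInP

open Pool.Agent.NPC Pool.Agent.H614R2.DPO Pool.Agent.R538.MO

/-- There is a polynomial-time algorithm which decides, for a mixed graph (edges of the simple
graph `G`, arcs `A`) with nonnegative rational lengths and two vertices `s`, `t`, whether some
orientation of the edges preserves both the distance from `s` to `t` and the distance from `t`
to `s`. -/
theorem result : ∃ D : List Bool → List Bool, PolyTime D ∧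
    ∀ (n : ℕ) (G : SimpleGraph (Fin n)) (A : Fin n → Fin n → Prop) (lE : Sym2 (Fin n) → ℚ)
      (lA : Fin n → Fin n → ℚ) (s t : Fin n),
      (∀ e ∈ G.edgeSet, 0 ≤ lE e) → (∀ u v, A u v → 0 ≤ lA u v) →
      (D (minput G A lE lA s t) = [true] ↔ ∃ O : Fin n → Fin n → Prop, IsOrientation G O ∧
        mdist O A lE lA s t = mdist G.Adj A lE lA s t ∧
        mdist O A lE lA t s = mdist G.Adj A lE lA t s) ∧
      (D (minput G A lE lA s t) = [false] ↔ ¬ ∃ O : Fin n → Fin n → Prop, IsOrientation G O ∧
        mdist O A lE lA s t = mdist G.Adj A lE lA s t ∧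
        mdist O A lE lA t s = mdist G.Adj A lE lA t s) := by
  refine ⟨fun x => [match unbits MData x with | none => false | some a => alg a], ?_, ?_⟩
  · refine polyTime_of_poly ((Poly.optCases (g := fun _ => false) (h := fun _ a => alg a)
      poly_unbits (NPC.Poly.const _) (poly_alg.comp (Poly.snd Poly.id))).congr fun x => ?_)
    cases unbits MData x <;> rfl
  · intro n G A lE lA s t hlE hlA
    have h1 : minput G A lE lA s t = bits (mdataOf G A lE lA s t) := rfl
    have h2 := alg_correct G A lE lA s t hlE hlA
    dsimp only
    rw [h1, unbits_bits]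
    simp only [List.cons.injEq, and_true]
    refine ⟨h2, ?_⟩
    rw [← h2]
    simp

end Pool.Agent.Results.MP_bc7fec_lc.MixedInP
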